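import Pool.Agent.helper88.T8.Spec
import Pool.Agent.helper11.T5.SWP
import Pool.Agent.helper11.T5.TR

/-!
# MP_16912e, project T8, row WA8: all tuples (from the tuples with `k ≤ n` and the symmetry `swp`)
-/

set_option autoImplicit false

namespace Pool.Agent.T8

open Finset NumberField Pool.Agent.helper3.FT Pool.Agent.helper47.RA Pool.Agent.T5 Pool.Agent.T6 Pool.Agent.T7
open scoped nonZeroDivisors

/-- a larger constant -/
theorem WA8_mono {κ N Y : ℝ} {d er es y : ℕ} {C C' W : ℝ} {P : Tpl → Prop} (h : UBd κ N Y d er es y C W P)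
    (hC : 0 ≤ C) (hCC : C ≤ C') (hW : 0 ≤ W) : UBd κ N Y d er es y C' W P := by
  intro s S hS F hF
  have hs : 0 ≤ s := (Nat.cast_nonneg _).trans (hS (0, 0))
  refine (h s S hS F hF).trans ?_
  have h1 : C ^ (y.primeFactors.card + 1) ≤ C' ^ (y.primeFactors.card + 1) := pow_le_pow_left₀ hC hCC _
  have h2 : 0 ≤ s / y * W := by positivity
  calc C ^ (y.primeFactors.card + 1) * (s / y) * W = C ^ (y.primeFactors.card + 1) * (s / y * W) := by ring
    _ ≤ C' ^ (y.primeFactors.card + 1) * (s / y * W) := mul_le_mul_of_nonneg_right h1 h2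
    _ = C' ^ (y.primeFactors.card + 1) * (s / y) * W := by ring

/-- from `k ≤ n` to all tuples -/
theorem WA8_all (hSX8 : SX8_stmt) {κ N Y : ℝ} {d er es y : ℕ} {C W : ℝ} (hM : Md d er es y) (hC : 0 ≤ C) (hW : 0 ≤ W)
    (h : UBd κ N Y d er es y C W (fun t => t.1.2 ≤ t.1.1)) : UBd κ N Y d er es y (2 * C) W (fun _ => True) := by
  classical
  intro s S hS F hF
  have hs : 0 ≤ s := (Nat.cast_nonneg _).trans (hS (0, 0))
  -- the classes of the symmetric tuples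
  have hx : ∀ (n k : ℕ) (x : Cls), ∃ x' : Cls, 1 ≤ n → 1 ≤ k → Nat.Coprime n k → Nat.Coprime (n * k) er →
      ∀ t : Tpl, IsT t → t.1 = (n, k) → InC er es x t → InC er es x' (swp t) := by
    intro n k x
    by_cases h0 : 1 ≤ n ∧ 1 ≤ k ∧ Nat.Coprime n k ∧ Nat.Coprime (n * k) er
    · obtain ⟨x', hx'⟩ := hSX8 er es n k x hM.r1 hM.s1 h0.1 h0.2.1 h0.2.2.1 hM.co h0.2.2.2
      exact ⟨x', fun _ _ _ _ => hx'⟩
    · exact ⟨x, fun a b c e => absurd ⟨a, b, c, e⟩ h0⟩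
  choose X hX using hx
  have h1 : ((F.filter fun t => t.1.2 ≤ t.1.1).card : ℝ) ≤ C ^ (y.primeFactors.card + 1) * (s / y) * W := by
    apply h s S hS
    intro t ht
    rw [Finset.mem_filter] at ht
    obtain ⟨a, -, b⟩ := hF t ht.1
    exact ⟨a, ht.2, b⟩
  have hinj : Set.InjOn swp ((F.filter fun t => ¬ t.1.2 ≤ t.1.1 : Finset Tpl) : Set Tpl) := by
    intro t ht t' ht' he
    rw [Finset.mem_coe, Finset.mem_filter] at ht ht'
    exact (SWP TR).2 t t' (hF t ht.1).1.tt (hF t' ht'.1).1.tt he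
  have h2 : (((F.filter fun t => ¬ t.1.2 ≤ t.1.1).image swp).card : ℝ) ≤ C ^ (y.primeFactors.card + 1) * (s / y) * W := by
    apply h s (fun p => (S (p.2, p.1)).image (X p.2 p.1))
    · intro p
      exact (Nat.cast_le.2 Finset.card_image_le).trans (hS _)
    · intro t' ht'
      rw [Finset.mem_image] at ht'
      obtain ⟨t, ht, rfl⟩ := ht'
      rw [Finset.mem_filter] at ht
      obtain ⟨hce, -, hy, hco, x, hxS, hxt⟩ := hF t ht.1
      obtain ⟨s1, s2, s3, -⟩ := (SWP TR).1 t hce.tt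
      refine ⟨⟨s1, ?_, ?_, ?_, ?_, ?_, ?_⟩, ?_, ?_, ?_, X t.1.1 t.1.2 x, ?_, ?_⟩
      · exact hce.l1
      · exact hce.l2
      · rw [s2]; exact hce.z1
      · rw [s2]; exact hce.z2
      · rw [s3]; exact hce.d1
      · rw [s3]; exact hce.d2
      · show t.1.1 ≤ t.1.2
        omega
      · show y ∣ t.1.2 * t.1.1
        rw [mul_comm]; exact hy
      · show Nat.Coprime (t.1.2 * t.1.1) er
        rw [mul_comm]; exact hco
      · show X t.1.1 t.1.2 x ∈ (S (t.1.1, t.1.2)).image (X t.1.1 t.1.2)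
        exact Finset.mem_image_of_mem _ hxS
      · exact hX t.1.1 t.1.2 x hce.tt.n1 hce.tt.k1 hce.tt.co hco t hce.tt rfl hxt
  rw [Finset.card_image_of_injOn hinj] at h2
  have h3 : (F.card : ℝ) = ((F.filter fun t => t.1.2 ≤ t.1.1).card : ℝ) + ((F.filter fun t => ¬ t.1.2 ≤ t.1.1).card : ℝ) := by
    rw [← Nat.cast_add, Finset.card_filter_add_card_filter_not]
  have h4 : 0 ≤ C ^ (y.primeFactors.card + 1) * (s / y) * W := by positivity
  have h5 : (2 : ℝ) ≤ 2 ^ (y.primeFactors.card + 1) := by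
    rw [pow_succ]
    have : (1 : ℝ) ≤ 2 ^ y.primeFactors.card := one_le_pow₀ (by norm_num)
    linarith
  calc (F.card : ℝ) ≤ 2 * (C ^ (y.primeFactors.card + 1) * (s / y) * W) := by linarith
    _ ≤ 2 ^ (y.primeFactors.card + 1) * (C ^ (y.primeFactors.card + 1) * (s / y) * W) := mul_le_mul_of_nonneg_right h5 h4
    _ = (2 * C) ^ (y.primeFactors.card + 1) * (s / y) * W := by rw [mul_pow]; ring

theorem WA8 (hWG8 : WG8_stmt) (hWT8 : WT8_stmt) (hSX8 : SX8_stmt) : WA8_stmt := by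
  intro κ A hκ hκ1 hA
  obtain ⟨C₁, N₁, hC₁, hN₁, H₁⟩ := hWG8 κ A hκ hκ1 hA
  obtain ⟨C₂, N₂, hC₂, hN₂, H₂⟩ := hWT8 κ A hκ hκ1 hA
  refine ⟨2 * (C₁ + C₂), N₁ + N₂, by linarith, by linarith, ?_⟩
  intro N Y hN hY hYA d er es y hM
  have hN0 : 0 < N := by linarith
  have hY0 : 0 < Y := (Real.rpow_pos_of_pos hN0 _).trans_le hY
  have w1 : 0 ≤ Y ^ 2 / ((er : ℝ) ^ 4 * (es : ℝ) ^ 3) := by positivity
  have w2 : 0 ≤ Real.log N ^ 2 * (Y ^ 2 / ((er : ℝ) ^ 4 * (es : ℝ) ^ 3) +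
      Y ^ 7 / (N ^ 2 * (d : ℝ) ^ 4) / ((er : ℝ) ^ 2 * (es : ℝ) ^ 2)) := by positivity
  constructor
  · intro hd
    have h1 := WA8_all hSX8 hM (by linarith) w1 (H₁ N Y (by linarith) hY hYA d er es y hM hd)
    exact WA8_mono h1 (by linarith) (by linarith) w1
  · have h1 := WA8_all hSX8 hM (by linarith) w2 (H₂ N Y (by linarith) hY hYA d er es y hM)
    exact WA8_mono h1 (by linarith) (by linarith) w2

end Pool.Agent.T8
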